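import Pool.Agent.TH469.EQ.Five
import Pool.Agent.TH469.EQ.Zyk

/-!
Extremal graphs for colour patterns need not be equitable: the pattern of `K_4` whose classes are
the edges of a 4-cycle and each of its two diagonals, with 46 colours.
-/

set_option autoImplicit false

namespace Pool.Agent.Results.MP_6a4ab5_co.NotEquitable

open Pool.Agent.TH469.EQ

/-- Let `PC` be the pattern of `K_4` with three classes: the edges of a 4-cycle, and each of its two
diagonals. It is neither the rainbow pattern `⊥` nor the monochromatic pattern `⊤`, and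
`r₁(PC) < 46`. For all sufficiently large `n` some `(46, PC)`-extremal graph on `n` vertices is a
complete multipartite graph with two parts whose sizes differ by more than 1, and no
`(46, PC)`-extremal graph on `n` vertices is equitable. -/
theorem result :
    (PC ≠ ⊥ ∧ PC ≠ ⊤) ∧ (∃ r1, IsLeast (rOneSet PC) r1 ∧ r1 < 46) ∧
    ∃ n0 : ℕ, ∀ n, n0 ≤ n →
      (∃ G : SimpleGraph (Fin n), Extremal 46 PC G ∧ G.IsCompleteMultipartite ∧
        ∃ x y : Fin n, Nat.card {z // ¬ G.Adj x z} + 1 < Nat.card {z // ¬ G.Adj y z}) ∧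
      ∀ G : SimpleGraph (Fin n), Extremal 46 PC G → ¬ Equitable G := by
  refine ⟨⟨PC_ne_bot, PC_ne_top⟩, exists_rOne, ?_⟩
  obtain ⟨n0, hn0⟩ := equitable_not_extremal
  refine ⟨n0, fun n hn => ⟨?_, hn0 n hn⟩⟩
  obtain ⟨G, hext, hcm⟩ := exists_cm n 46
  refine ⟨G, hext, hcm, ?_⟩
  by_contra hcon
  push Not at hcon
  exact hn0 n hn G hext ⟨hcm, fun x y => hcon y x⟩

end Pool.Agent.Results.MP_6a4ab5_co.NotEquitable
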